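import Pool.Agent.Helper97.RK.Stmts

set_option autoImplicit false

namespace Pool.Agent.Helper97.RK

theorem pelln_cop (d N x y : ℤ) (h : x ^ 2 - d * y ^ 2 = N) (hc : IsCoprime x y) :
    IsCoprime y N := by
  have h1 : IsCoprime y (x ^ 2) := (hc.symm).pow_right
  have h2 := h1.add_mul_left_right (-(d * y))
  have h3 : x ^ 2 + y * (-(d * y)) = N := by rw [← h]; ring
  rwa [h3] at h2

/-- the complementary divisor divides the sum -/
theorem pelln_sum (d N x y x0 y0 g h : ℤ) (e : x ^ 2 - d * y ^ 2 = N)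
    (e0 : x0 ^ 2 - d * y0 ^ 2 = N) (hg0 : g ≠ 0) (hgh : N = g * h)
    (hg : ((Int.gcd N (x * y0 - x0 * y) : ℕ) : ℤ) = g) :
    g ∣ x * y0 - x0 * y ∧ h ∣ x * y0 + x0 * y := by
  have h1 : g ∣ x * y0 - x0 * y := by
    rw [← hg]; exact Int.gcd_dvd_right _ _
  refine ⟨h1, ?_⟩
  obtain ⟨a1, ha1⟩ := h1
  have h2 := Int.gcd_eq_gcd_ab N (x * y0 - x0 * y)
  rw [hg] at h2
  set u := Int.gcdA N (x * y0 - x0 * y)
  set v := Int.gcdB N (x * y0 - x0 * y)
  rw [ha1, hgh] at h2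
  have h3 : 1 = h * u + a1 * v := by
    apply mul_left_cancel₀ hg0
    linarith
  have h4 : IsCoprime h a1 := ⟨u, v, by linarith⟩
  have h5 : a1 * (x * y0 + x0 * y) = h * (y0 ^ 2 - y ^ 2) := by
    apply mul_left_cancel₀ hg0
    have h6 : (x * y0 - x0 * y) * (x * y0 + x0 * y) = N * (y0 ^ 2 - y ^ 2) := by
      have e1 : x ^ 2 = N + d * y ^ 2 := by linarith
      have e2 : x0 ^ 2 = N + d * y0 ^ 2 := by linarith
      have e3 : (x * y0 - x0 * y) * (x * y0 + x0 * y) = x ^ 2 * y0 ^ 2 - x0 ^ 2 * y ^ 2 := by ring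
      rw [e3, e1, e2]
      ring
    rw [ha1, hgh] at h6
    linarith
  exact h4.dvd_of_dvd_mul_left ⟨_, h5⟩

theorem pelln_dvd (d N x y x' y' x0 y0 : ℤ) (hd : Squarefree d) (hN : N ≠ 0)
    (e : x ^ 2 - d * y ^ 2 = N) (e' : x' ^ 2 - d * y' ^ 2 = N) (e0 : x0 ^ 2 - d * y0 ^ 2 = N)
    (hc : IsCoprime x y) (hc0 : IsCoprime x0 y0)
    (hg : Int.gcd N (x * y0 - x0 * y) = Int.gcd N (x' * y0 - x0 * y')) :
    N ∣ 2 * (x * y' - x' * y) ∧ N ∣ 2 * (x * x' - d * y * y') := by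
  set g : ℤ := ((Int.gcd N (x * y0 - x0 * y) : ℕ) : ℤ) with hgdef
  have hgN : g ∣ N := Int.gcd_dvd_left _ _
  obtain ⟨h, hgh⟩ := hgN
  have hg0 : g ≠ 0 := by
    intro h1
    rw [h1, zero_mul] at hgh
    exact hN hgh
  obtain ⟨a1, a2⟩ := pelln_sum d N x y x0 y0 g h e e0 hg0 hgh rfl
  obtain ⟨b1, b2⟩ := pelln_sum d N x' y' x0 y0 g h e' e0 hg0 hgh (by rw [hgdef, hg])
  have hy0 := pelln_cop d N x0 y0 e0 hc0
  have hy := pelln_cop d N x y e hc
  have hgN : g ∣ N := ⟨h, hgh⟩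
  have hhN : h ∣ N := ⟨g, by rw [hgh]; ring⟩
  have cg : IsCoprime g y0 := (hy0.symm).of_isCoprime_of_dvd_left hgN
  have ch : IsCoprime h y0 := (hy0.symm).of_isCoprime_of_dvd_left hhN
  have d1 : g ∣ x * y' - x' * y := by
    have : g ∣ y0 * (x * y' - x' * y) := by
      have h1 : y0 * (x * y' - x' * y) = y' * (x * y0 - x0 * y) - y * (x' * y0 - x0 * y') := by ring
      rw [h1]
      exact dvd_sub (Dvd.dvd.mul_left a1 _) (Dvd.dvd.mul_left b1 _)
    exact cg.dvd_of_dvd_mul_left this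
  have d2 : h ∣ x * y' - x' * y := by
    have : h ∣ y0 * (x * y' - x' * y) := by
      have h1 : y0 * (x * y' - x' * y) = y' * (x * y0 + x0 * y) - y * (x' * y0 + x0 * y') := by ring
      rw [h1]
      exact dvd_sub (Dvd.dvd.mul_left a2 _) (Dvd.dvd.mul_left b2 _)
    exact ch.dvd_of_dvd_mul_left this
  set c : ℤ := ((Int.gcd g h : ℕ) : ℤ) with hcdef
  have cg' : c ∣ g := Int.gcd_dvd_left _ _
  have ch' : c ∣ h := Int.gcd_dvd_right _ _
  have hcc : c * c ∣ N := by rw [hgh]; exact mul_dvd_mul cg' ch'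
  have hc2x : c ∣ 2 * x := by
    have h1 : c ∣ (2 * x) * y0 := by
      have h2 : (2 * x) * y0 = (x * y0 - x0 * y) + (x * y0 + x0 * y) := by ring
      rw [h2]
      exact dvd_add (cg'.trans a1) (ch'.trans a2)
    have h3 : IsCoprime c y0 := cg.of_isCoprime_of_dvd_left cg'
    exact h3.dvd_of_dvd_mul_right h1
  have key : ∀ c' : ℤ, c' ∣ x → c' * c' ∣ N → IsUnit c' := by
    intro c' h1 h2
    apply hd c'
    have h3 : c' * c' ∣ d * y ^ 2 := by
      have h4 : d * y ^ 2 = x * x - N := by linarith [e]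
      rw [h4]
      exact dvd_sub (mul_dvd_mul h1 h1) h2
    have h5 : IsCoprime c' y := hc.of_isCoprime_of_dvd_left h1
    have h6 : IsCoprime (c' * c') (y ^ 2) := (h5.mul_left h5).pow_right
    exact h6.dvd_of_dvd_mul_right h3
  have hc2 : c ∣ 2 := by
    rcases Int.even_or_odd c with hev | hodd
    · obtain ⟨c', hc'⟩ := hev
      have h1 : c = 2 * c' := by linarith
      have h2 : c' ∣ x := by
        rw [h1] at hc2x
        exact (mul_dvd_mul_iff_left (by norm_num : (2 : ℤ) ≠ 0)).1 hc2x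
      have h3 : c' * c' ∣ N := by
        refine dvd_trans ?_ hcc
        rw [h1]
        exact ⟨4, by ring⟩
      have h4 := key c' h2 h3
      rw [h1]
      have h5 : c' ∣ 1 := h4.dvd
      calc 2 * c' ∣ 2 * 1 := mul_dvd_mul_left 2 h5
        _ = 2 := by norm_num
    · have h1 : IsCoprime c 2 := by
        obtain ⟨k, hk⟩ := hodd
        exact ⟨1, -k, by rw [hk]; ring⟩
      have h2 : c ∣ x := h1.dvd_of_dvd_mul_left hc2x
      exact (key c h2 hcc).dvd
  have f1 : N ∣ 2 * (x * y' - x' * y) := by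
    obtain ⟨Δg, hΔg⟩ := d1
    obtain ⟨Δh, hΔh⟩ := d2
    obtain ⟨t, ht⟩ := hc2
    have h1 := Int.gcd_eq_gcd_ab g h
    rw [← hcdef] at h1
    set u := Int.gcdA g h
    set v := Int.gcdB g h
    refine ⟨t * (u * Δh + v * Δg), ?_⟩
    have h2 : 2 * (x * y' - x' * y) = t * (g * u * (x * y' - x' * y) +
        h * v * (x * y' - x' * y)) := by
      rw [ht, h1]; ring
    rw [h2, hgh]
    have h3 : g * u * (x * y' - x' * y) = g * u * (h * Δh) := by rw [hΔh]
    have h4 : h * v * (x * y' - x' * y) = h * v * (g * Δg) := by rw [hΔg]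
    rw [h3, h4]
    ring
  refine ⟨f1, ?_⟩
  have h1 : N ∣ y * (2 * (x * x' - d * y * y')) := by
    have h2 : y * (2 * (x * x' - d * y * y')) = -(x * (2 * (x * y' - x' * y))) + N * (2 * y') := by
      rw [← e]; ring
    rw [h2]
    exact dvd_add ((f1.mul_left x).neg_right) (Dvd.intro _ rfl)
  exact (hy.symm).dvd_of_dvd_mul_left h1

/-- primitive solutions -/
theorem pelln_prim (hP : ST_PELL4) (d N : ℤ) (hd : Squarefree d) (hN : N ≠ 0) (T : ℕ)
    (hT : 1 ≤ T) (R : Finset (ℤ × ℤ))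
    (hR : ∀ v ∈ R, v.1 ^ 2 - d * v.2 ^ 2 = N ∧ |v.1| ≤ T ∧ |v.2| ≤ T ∧ IsCoprime v.1 v.2) :
    R.card ≤ 25 * (Nat.log 2 (2 * (1 + d.natAbs) * T ^ 2) + 2) * N.natAbs.divisors.card := by
  classical
  rcases R.eq_empty_or_nonempty with hemp | ⟨v0, hv0⟩
  · rw [hemp]; simp
  set T' : ℕ := 2 * (1 + d.natAbs) * T ^ 2 with hT'
  have hT'1 : 1 ≤ T' := by
    rw [hT']
    have h0 : 0 < T := hT
    exact Nat.succ_le_of_lt (by positivity)
  obtain ⟨hfin, hcard⟩ := hP d hd T' hT'1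
  obtain ⟨e0, -, -, c0⟩ := hR v0 hv0
  refine Finset.card_le_mul_card_image_of_maps_to
    (f := fun v : ℤ × ℤ => Int.gcd N (v.1 * v0.2 - v0.1 * v.2)) ?_ _ ?_
  · intro v _
    rw [Nat.mem_divisors]
    refine ⟨?_, Int.natAbs_ne_zero.2 hN⟩
    have := Int.gcd_dvd_left N (v.1 * v0.2 - v0.1 * v.2)
    exact Int.natCast_dvd.1 this
  · intro g _
    rcases (R.filter fun v : ℤ × ℤ => Int.gcd N (v.1 * v0.2 - v0.1 * v.2) = g).eq_empty_or_nonempty
      with hemp | ⟨v1, hv1⟩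
    · rw [hemp]; simp
    obtain ⟨hv1R, hv1g⟩ := Finset.mem_filter.1 hv1
    obtain ⟨e1, a1, b1, c1⟩ := hR v1 hv1R
    refine le_trans ?_ hcard
    rw [Set.ncard_eq_toFinset_card _ hfin]
    refine Finset.card_le_card_of_injOn
      (fun v : ℤ × ℤ => (2 * (v.1 * v1.1 - d * v.2 * v1.2) / N, 2 * (v.1 * v1.2 - v1.1 * v.2) / N))
      ?_ ?_
    · intro v hv
      rw [Finset.mem_coe, Finset.mem_filter] at hv
      obtain ⟨hvR, hvg⟩ := hv
      obtain ⟨e, a, b, c⟩ := hR v hvR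
      obtain ⟨D1, D2⟩ := pelln_dvd d N v.1 v.2 v1.1 v1.2 v0.1 v0.2 hd hN e e1 e0 c c0
        (by rw [hvg, hv1g])
      obtain ⟨W, hW⟩ := D1
      obtain ⟨U, hU⟩ := D2
      rw [Finset.mem_coe, Set.Finite.mem_toFinset]
      simp only [Set.mem_setOf_eq]
      rw [hU, hW, Int.mul_ediv_cancel_left _ hN, Int.mul_ediv_cancel_left _ hN]
      constructor
      · have h1 : N ^ 2 * (U ^ 2 - d * W ^ 2) = N ^ 2 * 4 := by
          have h2 : N ^ 2 * (U ^ 2 - d * W ^ 2) = (N * U) ^ 2 - d * (N * W) ^ 2 := by ring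
          rw [h2, ← hU, ← hW]
          have h3 : (2 * (v.1 * v1.1 - d * v.2 * v1.2)) ^ 2 - d * (2 * (v.1 * v1.2 - v1.1 * v.2)) ^ 2
              = 4 * ((v.1 ^ 2 - d * v.2 ^ 2) * (v1.1 ^ 2 - d * v1.2 ^ 2)) := by ring
          rw [h3, e, e1]
          ring
        exact mul_left_cancel₀ (pow_ne_zero 2 hN) h1
      · have hN1 : 1 ≤ |N| := Int.one_le_abs hN
        have h1 : |N| * |U| = |2 * (v.1 * v1.1 - d * v.2 * v1.2)| := by rw [hU, abs_mul]
        have h2 : |2 * (v.1 * v1.1 - d * v.2 * v1.2)| ≤ 2 * (|v.1| * |v1.1| + |d| * |v.2| * |v1.2|) := by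
          rw [abs_mul, abs_two]
          refine mul_le_mul_of_nonneg_left ?_ (by norm_num)
          refine (abs_sub _ _).trans ?_
          rw [abs_mul, abs_mul, abs_mul]
        have h3 : |v.1| * |v1.1| ≤ (T : ℤ) * T := mul_le_mul a a1 (abs_nonneg _) (by positivity)
        have h4 : |v.2| * |v1.2| ≤ (T : ℤ) * T := mul_le_mul b b1 (abs_nonneg _) (by positivity)
        have h5 : |d| * |v.2| * |v1.2| ≤ |d| * ((T : ℤ) * T) := by
          rw [mul_assoc]
          exact mul_le_mul_of_nonneg_left h4 (abs_nonneg _)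
        have h6 : |U| ≤ |N| * |U| := le_mul_of_one_le_left (abs_nonneg _) hN1
        have h7 : ((T' : ℕ) : ℤ) = 2 * (1 + |d|) * (T : ℤ) ^ 2 := by
          rw [hT']
          push_cast
          rfl
        rw [h7]
        nlinarith
    · intro v hv v' hv' hvv
      rw [Finset.mem_coe, Finset.mem_filter] at hv hv'
      obtain ⟨hvR, hvg⟩ := hv
      obtain ⟨hvR', hvg'⟩ := hv'
      obtain ⟨e, a, b, c⟩ := hR v hvR
      obtain ⟨e', a', b', c'⟩ := hR v' hvR'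
      obtain ⟨⟨W, hW⟩, ⟨U, hU⟩⟩ := pelln_dvd d N v.1 v.2 v1.1 v1.2 v0.1 v0.2 hd hN e e1 e0 c c0
        (by rw [hvg, hv1g])
      obtain ⟨⟨W', hW'⟩, ⟨U', hU'⟩⟩ := pelln_dvd d N v'.1 v'.2 v1.1 v1.2 v0.1 v0.2 hd hN e' e1 e0
        c' c0 (by rw [hvg', hv1g])
      simp only [Prod.mk.injEq] at hvv
      rw [hU, hW, hU', hW', Int.mul_ediv_cancel_left _ hN, Int.mul_ediv_cancel_left _ hN,
        Int.mul_ediv_cancel_left _ hN, Int.mul_ediv_cancel_left _ hN] at hvv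
      obtain ⟨hUU, hWW⟩ := hvv
      have p1 : v.1 * v1.1 - d * v.2 * v1.2 = v'.1 * v1.1 - d * v'.2 * v1.2 := by
        have : 2 * (v.1 * v1.1 - d * v.2 * v1.2) = 2 * (v'.1 * v1.1 - d * v'.2 * v1.2) := by
          rw [hU, hU', hUU]
        linarith
      have p2 : v.1 * v1.2 - v1.1 * v.2 = v'.1 * v1.2 - v1.1 * v'.2 := by
        have : 2 * (v.1 * v1.2 - v1.1 * v.2) = 2 * (v'.1 * v1.2 - v1.1 * v'.2) := by
          rw [hW, hW', hWW]
        linarith
      have q1 : N * v.1 = N * v'.1 := by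
        have r1 : (v.1 * v1.1 - d * v.2 * v1.2) * v1.1 - d * v1.2 * (v.1 * v1.2 - v1.1 * v.2) =
            (v1.1 ^ 2 - d * v1.2 ^ 2) * v.1 := by ring
        have r2 : (v'.1 * v1.1 - d * v'.2 * v1.2) * v1.1 - d * v1.2 * (v'.1 * v1.2 - v1.1 * v'.2) =
            (v1.1 ^ 2 - d * v1.2 ^ 2) * v'.1 := by ring
        rw [e1] at r1 r2
        rw [← r1, ← r2, p1, p2]
      have q2 : N * v.2 = N * v'.2 := by
        have r1 : (v.1 * v1.1 - d * v.2 * v1.2) * v1.2 - v1.1 * (v.1 * v1.2 - v1.1 * v.2) =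
            (v1.1 ^ 2 - d * v1.2 ^ 2) * v.2 := by ring
        have r2 : (v'.1 * v1.1 - d * v'.2 * v1.2) * v1.2 - v1.1 * (v'.1 * v1.2 - v1.1 * v'.2) =
            (v1.1 ^ 2 - d * v1.2 ^ 2) * v'.2 := by ring
        rw [e1] at r1 r2
        rw [← r1, ← r2, p1, p2]
      exact Prod.ext (mul_left_cancel₀ hN q1) (mul_left_cancel₀ hN q2)

theorem st_PELLN (hP : ST_PELL4) : ST_PELLN := by
  classical
  intro d N hd hN T hT
  set C : ℕ := 25 * (Nat.log 2 (2 * (1 + d.natAbs) * T ^ 2) + 2) with hC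
  set S : Finset (ℤ × ℤ) := (Finset.Icc (-(T : ℤ)) T ×ˢ Finset.Icc (-(T : ℤ)) T).filter
    (fun v : ℤ × ℤ => v.1 ^ 2 - d * v.2 ^ 2 = N) with hS
  have hSe : {v : ℤ × ℤ | v.1 ^ 2 - d * v.2 ^ 2 = N ∧ |v.1| ≤ T ∧ |v.2| ≤ T} = (S : Set (ℤ × ℤ)) := by
    ext v
    rw [hS]
    simp only [Set.mem_setOf_eq, Finset.coe_filter, Finset.mem_product, Finset.mem_Icc, abs_le]
    tauto
  rw [hSe, Set.ncard_coe_finset]
  have hSm : ∀ v ∈ S, v.1 ^ 2 - d * v.2 ^ 2 = N ∧ |v.1| ≤ T ∧ |v.2| ≤ T := by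
    intro v hv
    have : v ∈ (S : Set (ℤ × ℤ)) := hv
    rw [← hSe] at this
    exact this
  have hNa : N.natAbs ≠ 0 := Int.natAbs_ne_zero.2 hN
  have hmain : S.card ≤ (C * N.natAbs.divisors.card) * N.natAbs.divisors.card := by
    refine Finset.card_le_mul_card_image_of_maps_to
      (f := fun v : ℤ × ℤ => Int.gcd v.1 v.2) ?_ _ ?_
    · intro v hv
      obtain ⟨e, -, -⟩ := hSm v hv
      rw [Nat.mem_divisors]
      refine ⟨?_, hNa⟩
      have h1 : ((Int.gcd v.1 v.2 : ℕ) : ℤ) ∣ N := by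
        rw [← e]
        exact dvd_sub (Dvd.dvd.pow (Int.gcd_dvd_left _ _) (by norm_num))
          (Dvd.dvd.mul_left (Dvd.dvd.pow (Int.gcd_dvd_right _ _) (by norm_num)) _)
      exact Int.natCast_dvd.1 h1
    · intro g hg
      have hg0 : g ≠ 0 := by
        intro h
        rw [h] at hg
        exact hNa (Nat.eq_zero_of_zero_dvd (Nat.mem_divisors.1 hg).1)
      have hgz : (g : ℤ) ≠ 0 := Int.natCast_ne_zero.2 hg0
      rcases (S.filter fun v : ℤ × ℤ => Int.gcd v.1 v.2 = g).eq_empty_or_nonempty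
        with hemp | ⟨v1, hv1⟩
      · rw [hemp]; simp
      have hform : ∀ v ∈ S.filter (fun v : ℤ × ℤ => Int.gcd v.1 v.2 = g),
          v.1 = g * (v.1 / g) ∧ v.2 = g * (v.2 / g) ∧ IsCoprime (v.1 / g) (v.2 / g) := by
        intro v hv
        obtain ⟨_, h2⟩ := Finset.mem_filter.1 hv
        have h3 : (g : ℤ) ∣ v.1 := by rw [← h2]; exact Int.gcd_dvd_left _ _
        have h4 : (g : ℤ) ∣ v.2 := by rw [← h2]; exact Int.gcd_dvd_right _ _
        have e3 := (Int.mul_ediv_cancel' h3).symm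
        have e4 := (Int.mul_ediv_cancel' h4).symm
        refine ⟨e3, e4, ?_⟩
        have h5 := Int.gcd_eq_gcd_ab v.1 v.2
        rw [h2] at h5
        set u := Int.gcdA v.1 v.2
        set w := Int.gcdB v.1 v.2
        refine ⟨u, w, ?_⟩
        apply mul_left_cancel₀ hgz
        calc (g : ℤ) * (u * (v.1 / g) + w * (v.2 / g)) =
            (g * (v.1 / g)) * u + (g * (v.2 / g)) * w := by ring
          _ = v.1 * u + v.2 * w := by rw [← e3, ← e4]
          _ = g * 1 := by rw [← h5, mul_one]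
      obtain ⟨hv1S, hv1g⟩ := Finset.mem_filter.1 hv1
      obtain ⟨m, hm⟩ : ∃ m : ℤ, N = (g : ℤ) ^ 2 * m := by
        obtain ⟨f1, f2, -⟩ := hform v1 hv1
        refine ⟨(v1.1 / g) ^ 2 - d * (v1.2 / g) ^ 2, ?_⟩
        rw [← (hSm v1 hv1S).1]
        calc v1.1 ^ 2 - d * v1.2 ^ 2 = (g * (v1.1 / g)) ^ 2 - d * (g * (v1.2 / g)) ^ 2 := by
              rw [← f1, ← f2]
          _ = _ := by ring
      have hm0 : m ≠ 0 := by
        rintro rfl
        rw [mul_zero] at hm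
        exact hN hm
      have hg1 : (1 : ℤ) ≤ g := by
        have := Nat.pos_of_ne_zero hg0
        exact_mod_cast this
      have hle : ∀ a : ℤ, |a| ≤ |(g : ℤ) * a| := by
        intro a
        rw [abs_mul]
        refine le_mul_of_one_le_left (abs_nonneg _) ?_
        rw [abs_of_nonneg (by linarith)]
        exact hg1
      have hinj : Set.InjOn (fun v : ℤ × ℤ => (v.1 / (g : ℤ), v.2 / (g : ℤ)))
          (S.filter (fun v : ℤ × ℤ => Int.gcd v.1 v.2 = g) : Set (ℤ × ℤ)) := by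
        intro v hv v' hv' h
        obtain ⟨f1, f2, -⟩ := hform v hv
        obtain ⟨f1', f2', -⟩ := hform v' hv'
        simp only [Prod.mk.injEq] at h
        refine Prod.ext ?_ ?_
        · rw [f1, f1', h.1]
        · rw [f2, f2', h.2]
      rw [← Finset.card_image_of_injOn hinj]
      have h1 := pelln_prim hP d m hd hm0 T hT
        ((S.filter (fun v : ℤ × ℤ => Int.gcd v.1 v.2 = g)).image
          (fun v : ℤ × ℤ => (v.1 / (g : ℤ), v.2 / (g : ℤ)))) ?_
      · refine h1.trans ?_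
        refine Nat.mul_le_mul_left _ ?_
        refine Finset.card_le_card (Nat.divisors_subset_of_dvd hNa ?_)
        rw [hm, Int.natAbs_mul]
        exact Dvd.intro_left _ rfl
      · intro v hv
        obtain ⟨w, hw, rfl⟩ := Finset.mem_image.1 hv
        obtain ⟨f1, f2, f3⟩ := hform w hw
        obtain ⟨e, a, b⟩ := hSm w (Finset.mem_filter.1 hw).1
        refine ⟨?_, ?_, ?_, f3⟩
        · apply mul_left_cancel₀ (pow_ne_zero 2 hgz)
          rw [← hm, ← e]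
          calc (g : ℤ) ^ 2 * ((w.1 / g) ^ 2 - d * (w.2 / g) ^ 2) =
              (g * (w.1 / g)) ^ 2 - d * (g * (w.2 / g)) ^ 2 := by ring
            _ = _ := by rw [← f1, ← f2]
        · exact (hle _).trans (by rw [← f1]; exact a)
        · exact (hle _).trans (by rw [← f2]; exact b)
  refine hmain.trans (le_of_eq ?_)
  ring

end Pool.Agent.Helper97.RK
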